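import Pool.Agent.W728.PK.Stms

/-!
# Project PK, subtask EXB: basic facts of the explicit family
-/

namespace Pool.Agent.W882.PK

open Complex Metric Set Filter Topology MeasureTheory
open scoped Real ComplexConjugate
open Pool.Agent.W728.PK

theorem lev_pos (j : ℕ) : 0 < lev j := by unfold lev; positivity

theorem lev_le (j : ℕ) : lev j ≤ 1 / 2 := by
  unfold lev
  rw [pow_succ]
  have : (1 / 2 : ℝ) ^ j ≤ 1 := pow_le_one₀ (by norm_num) (by norm_num)
  linarith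

theorem lev_lt {j k : ℕ} (h : j < k) : lev k ≤ lev j / 2 := by
  unfold lev
  have h1 : (1 / 2 : ℝ) ^ (k + 1) ≤ (1 / 2 : ℝ) ^ (j + 1 + 1) :=
    pow_le_pow_of_le_one (by norm_num) (by norm_num) (by omega)
  rw [pow_succ _ (j + 1)] at h1
  linarith

theorem NN_pos (α : ℝ) (j : ℕ) : 0 < NN α j := by
  unfold NN
  rw [Nat.ceil_pos]
  positivity

theorem NN_le {α : ℝ} (h0 : 0 < α) (h1 : α < 1) (j : ℕ) :
    (NN α j : ℝ) * lev j ^ (1 / α) ≤ 2 * lev j := by
  have hα : 1 < 1 / α := by rw [lt_div_iff₀ h0]; linarith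
  have hj : (1 : ℝ) ≤ (j : ℝ) + 1 := by linarith [(Nat.cast_nonneg j : (0 : ℝ) ≤ j)]
  have e1 : ((j : ℝ) + 1) ^ (-(1 / α)) ≤ 1 :=
    Real.rpow_le_one_of_one_le_of_nonpos hj (by linarith)
  have e2 : (1 : ℝ) ≤ (2 : ℝ) ^ (((j : ℝ) + 1) * (1 / α - 1)) :=
    Real.one_le_rpow (by norm_num) (mul_nonneg (by linarith) (by linarith))
  have e3 : (NN α j : ℝ) ≤ 2 * (2 : ℝ) ^ (((j : ℝ) + 1) * (1 / α - 1)) := by
    have := (Nat.ceil_lt_add_one (a := (2 : ℝ) ^ (((j : ℝ) + 1) * (1 / α - 1)) *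
      ((j : ℝ) + 1) ^ (-(1 / α))) (by positivity)).le
    have h3 : (2 : ℝ) ^ (((j : ℝ) + 1) * (1 / α - 1)) * ((j : ℝ) + 1) ^ (-(1 / α)) ≤
        (2 : ℝ) ^ (((j : ℝ) + 1) * (1 / α - 1)) := by
      have := mul_le_mul_of_nonneg_left e1
        (show (0 : ℝ) ≤ (2 : ℝ) ^ (((j : ℝ) + 1) * (1 / α - 1)) by positivity)
      linarith
    unfold NN
    linarith
  have hl : lev j = (2 : ℝ) ^ (-((j : ℝ) + 1)) := by
    unfold lev
    rw [Real.rpow_neg (by norm_num), one_div, inv_pow]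
    congr 1
    rw [← Real.rpow_natCast]
    push_cast
    rfl
  have e4 : (2 : ℝ) ^ (((j : ℝ) + 1) * (1 / α - 1)) * lev j ^ (1 / α) = lev j := by
    rw [hl, ← Real.rpow_mul (by norm_num), ← Real.rpow_add (by norm_num)]
    congr 1
    ring
  calc (NN α j : ℝ) * lev j ^ (1 / α)
      ≤ (2 * (2 : ℝ) ^ (((j : ℝ) + 1) * (1 / α - 1))) * lev j ^ (1 / α) :=
        mul_le_mul_of_nonneg_right e3 (Real.rpow_nonneg (lev_pos j).le _)
    _ = 2 * ((2 : ℝ) ^ (((j : ℝ) + 1) * (1 / α - 1)) * lev j ^ (1 / α)) := by ring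
    _ = 2 * lev j := by rw [e4]

theorem th_ge (α : ℝ) (x : Idx α) : lev x.1 ≤ th α x := by
  unfold th
  have h1 : (0 : ℝ) ≤ ((x.2 : ℕ) : ℝ) / (2 * (NN α x.1 : ℝ)) := by positivity
  nlinarith [lev_pos x.1]

theorem th_lt (α : ℝ) (x : Idx α) : th α x ≤ 3 / 2 * lev x.1 := by
  unfold th
  have hN : (0 : ℝ) < (NN α x.1 : ℝ) := by exact_mod_cast NN_pos α x.1
  have h1 : ((x.2 : ℕ) : ℝ) / (2 * (NN α x.1 : ℝ)) ≤ 1 / 2 := by
    rw [div_le_iff₀ (by positivity)]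
    have : ((x.2 : ℕ) : ℝ) ≤ (NN α x.1 : ℝ) := by exact_mod_cast x.2.2.le
    linarith
  nlinarith [lev_pos x.1]

theorem dd_le {α : ℝ} (h0 : 0 < α) (h1 : α < 1) (x : Idx α) : dd α x ≤ lev x.1 / 64 := by
  unfold dd
  have hα : 1 ≤ 1 / α := by rw [le_div_iff₀ h0]; linarith
  have h2 : lev x.1 ^ (1 / α) ≤ lev x.1 ^ (1 : ℝ) :=
    Real.rpow_le_rpow_of_exponent_ge (lev_pos _) (by linarith [lev_le x.1]) hα
  rw [Real.rpow_one] at h2
  linarith

theorem two_pi : (5 : ℝ) / 8 ≤ 2 / π := by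
  rw [le_div_iff₀ Real.pi_pos]
  have := Real.pi_lt_d2
  linarith

theorem chord_ge (x y : ℝ) (h : |x - y| ≤ 3) :
    5 / 8 * |x - y| ≤ ‖Complex.exp ((x : ℂ) * I) - Complex.exp ((y : ℂ) * I)‖ := by
  refine le_trans ?_ (le_chord x y (h.trans (by linarith [Real.pi_gt_three])))
  exact mul_le_mul_of_nonneg_right two_pi (abs_nonneg _)

theorem one_sub_pp (α : ℝ) (x : Idx α) :
    5 / 8 * lev x.1 ≤ ‖1 - pp α x‖ ∧ ‖1 - pp α x‖ ≤ 3 / 2 * lev x.1 := by
  have e : (1 : ℂ) = Complex.exp (((0 : ℝ) : ℂ) * I) := by simp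
  have hp : 0 < th α x := (lev_pos _).trans_le (th_ge α x)
  have habs : |(0 : ℝ) - th α x| = th α x := by rw [zero_sub, abs_neg, abs_of_pos hp]
  have hle := th_lt α x
  have hl := lev_le x.1
  constructor
  · have := chord_ge 0 (th α x) (by rw [habs]; linarith)
    rw [habs, ← e] at this
    have h2 := th_ge α x
    unfold pp
    linarith
  · have := chord_le 0 (th α x)
    rw [habs, ← e] at this
    unfold pp
    linarith

theorem sep_lt {α : ℝ} (h0 : 0 < α) (h1 : α < 1) (x y : Idx α) (h : x.1 < y.1) :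
    dd α x + dd α y ≤ ‖pp α x - pp α y‖ := by
  have a1 := dd_le h0 h1 x
  have a2 := dd_le h0 h1 y
  have a3 := lev_lt h
  have a4 := th_ge α x
  have a5 := th_lt α y
  have a6 := lev_pos x.1
  have a7 := th_lt α x
  have a8 := lev_le x.1
  have a9 := th_ge α y
  have a10 := lev_pos y.1
  have h2 : |th α x - th α y| = th α x - th α y := abs_of_nonneg (by linarith)
  have := chord_ge (th α x) (th α y) (by rw [h2]; linarith)
  rw [h2] at this
  unfold pp
  linarith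

theorem sep_same {α : ℝ} (h0 : 0 < α) (h1 : α < 1) (j : ℕ) (i k : Fin (NN α j)) (h : i ≠ k) :
    dd α ⟨j, i⟩ + dd α ⟨j, k⟩ ≤ ‖pp α ⟨j, i⟩ - pp α ⟨j, k⟩‖ := by
  have hN : (0 : ℝ) < (NN α j : ℝ) := by exact_mod_cast NN_pos α j
  have hL := lev_pos j
  have e1 : th α ⟨j, i⟩ - th α ⟨j, k⟩ =
      lev j / (2 * (NN α j : ℝ)) * (((i : ℕ) : ℝ) - ((k : ℕ) : ℝ)) := by
    unfold th
    simp only
    field_simp
    ring
  have e2 : (1 : ℝ) ≤ |((i : ℕ) : ℝ) - ((k : ℕ) : ℝ)| := by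
    have hne : ((i : ℕ) : ℤ) - ((k : ℕ) : ℤ) ≠ 0 := by
      intro h'
      apply h
      ext
      omega
    have := Int.one_le_abs hne
    exact_mod_cast this
  have e3 : lev j / (2 * (NN α j : ℝ)) ≤ |th α ⟨j, i⟩ - th α ⟨j, k⟩| := by
    rw [e1, abs_mul, abs_of_pos (by positivity : 0 < lev j / (2 * (NN α j : ℝ)))]
    exact le_mul_of_one_le_right (by positivity) e2
  have e4 : lev j ^ (1 / α) / 4 ≤ lev j / (2 * (NN α j : ℝ)) := by
    rw [div_le_div_iff₀ (by norm_num) (by positivity)]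
    have := NN_le h0 h1 j
    linarith
  have b1 := th_ge α ⟨j, i⟩
  have b2 := th_ge α ⟨j, k⟩
  have b3 := th_lt α ⟨j, i⟩
  have b4 := th_lt α ⟨j, k⟩
  simp only at b1 b2 b3 b4
  have hl := lev_le j
  have hb : |th α ⟨j, i⟩ - th α ⟨j, k⟩| ≤ 3 := by
    rw [abs_le]; constructor <;> linarith
  have := chord_ge _ _ hb
  have hp : 0 ≤ lev j ^ (1 / α) := Real.rpow_nonneg hL.le _
  unfold pp dd
  simp only
  linarith

theorem t_EXB : EXB_stmt := by
  intro α h0 h1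
  refine ⟨?_, ?_, ?_, ?_, ?_⟩
  · intro i
    unfold pp
    exact Complex.norm_exp_ofReal_mul_I _
  · intro i
    unfold dd
    have := lev_pos i.1
    positivity
  · intro i
    have a1 := dd_le h0 h1 i
    have a2 := (one_sub_pp α i).1
    have a3 := lev_pos i.1
    linarith
  · intro x y hxy
    rcases lt_trichotomy x.1 y.1 with h | h | h
    · exact sep_lt h0 h1 x y h
    · obtain ⟨j, i⟩ := x
      obtain ⟨k, l⟩ := y
      simp only at h
      subst h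
      refine sep_same h0 h1 j i l ?_
      rintro rfl
      exact hxy rfl
    · rw [add_comm, norm_sub_rev]
      exact sep_lt h0 h1 y x h
  · refine ⟨96, by norm_num, ?_⟩
    intro i
    have hL := lev_pos i.1
    have e1 : dd α i ^ α = lev i.1 / (64 : ℝ) ^ α := by
      unfold dd
      rw [Real.div_rpow (Real.rpow_nonneg hL.le _) (by norm_num), ← Real.rpow_mul hL.le,
        one_div_mul_cancel h0.ne', Real.rpow_one]
    have e2 : (1 : ℝ) ≤ (64 : ℝ) ^ α := Real.one_le_rpow (by norm_num) h0.le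
    have e3 : (64 : ℝ) ^ α ≤ 64 := by
      have := Real.rpow_le_rpow_of_exponent_le (x := (64 : ℝ)) (by norm_num) h1.le
      rwa [Real.rpow_one] at this
    have e4 : lev i.1 / 64 ≤ lev i.1 / (64 : ℝ) ^ α :=
      div_le_div_of_nonneg_left hL.le (by positivity) e3
    have e5 : lev i.1 / (64 : ℝ) ^ α ≤ lev i.1 := div_le_self hL.le e2
    obtain ⟨f1, f2⟩ := one_sub_pp α i
    rw [e1]
    constructor <;> linarith

end Pool.Agent.W882.PK
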